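import Pool.Agent.Q120.BS.Perm

/-!
# MP_4f027a_co, Q1: one value of `q` separates the commutation classes

The symmetric group `S_{n+1}` is `Perm (Fin (n+1))`; words are lists of letters `i : Fin n`, the
letter `i` standing for the simple transposition exchanging `i` and `i+1`.
-/

namespace Pool.Agent.Results.MP_4f027a_co.FixedQ

open Equiv

/-- the simple transposition exchanging `i` and `i+1` -/
def s {n : ℕ} (i : Fin n) : Perm (Fin (n + 1)) := Equiv.swap i.castSucc i.succ

/-- the permutation represented by a word -/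
def eval {n : ℕ} (R : List (Fin n)) : Perm (Fin (n + 1)) := (R.map s).prod

/-- the length of a permutation: the least length of a word representing it -/
noncomputable def len {n : ℕ} (w : Perm (Fin (n + 1))) : ℕ :=
  sInf {k | ∃ R : List (Fin n), R.length = k ∧ eval R = w}

/-- a word is reduced if its length is the length of the permutation it represents -/
def Reduced {n : ℕ} (R : List (Fin n)) : Prop := len (eval R) = R.length

/-- one commutation move: two adjacent letters `i`, `j` with `|i - j| > 1` are exchanged -/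
def Move {n : ℕ} (R S : List (Fin n)) : Prop :=
  ∃ (A : List (Fin n)) (i j : Fin n) (B : List (Fin n)),
    ((i : ℕ) + 1 < j ∨ (j : ℕ) + 1 < i) ∧ R = A ++ i :: j :: B ∧ S = A ++ j :: i :: B

/-- two words are in the same commutation class if finitely many commutation moves turn one into
the other -/
def SameClass {n : ℕ} (R S : List (Fin n)) : Prop := Relation.ReflTransGen Move R S

/-- `T` is the standard basis of the Hecke algebra `H` of `S_{n+1}` at the integer `q`:
`T_w T_{s_i} = T_{w s_i}` when the length goes up, and `T_{s_i}^2 = (q-1) T_{s_i} + q`. -/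
structure IsHecke {n : ℕ} (q : ℤ) {H : Type*} [Ring H]
    (T : Module.Basis (Perm (Fin (n + 1))) ℤ H) : Prop where
  one : T 1 = 1
  up : ∀ (w : Perm (Fin (n + 1))) (i : Fin n), len w < len (w * s i) →
    T w * T (s i) = T (w * s i)
  quad : ∀ i : Fin n, T (s i) * T (s i) = (q - 1) • T (s i) + q • (1 : H)

/-- the Bott-Samelson distribution: `q^{ℓ(w)} c_{R,w}(q) / (1+q)^{|R|}`, where `c_{R,w}(q)` is the
coefficient of `T_w` in the product of the `1 + T_{s_i}` over the letters `i` of `R` -/
noncomputable def bs {n : ℕ} (q : ℤ) {H : Type*} [Ring H]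
    (T : Module.Basis (Perm (Fin (n + 1))) ℤ H) (R : List (Fin n)) (w : Perm (Fin (n + 1))) : ℚ :=
  (q : ℚ) ^ len w * (T.repr ((R.map fun i => 1 + T (s i)).prod) w : ℚ) / (1 + q) ^ R.length

/-- Right multiplication by `T_{s_i}` in the Hecke algebra, written on the free module with basis
the `T_w`: `T_w` goes to `T_{w s_i}` if the length goes up, else to
`(q-1) T_w + q T_{w s_i}`. -/
noncomputable def rmul {n : ℕ} (q : ℤ) (i : Fin n) :
    (Perm (Fin (n + 1)) →₀ ℤ) →ₗ[ℤ] (Perm (Fin (n + 1)) →₀ ℤ) :=
  Finsupp.linearCombination ℤ fun w =>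
    if len w < len (w * s i) then Finsupp.single (w * s i) 1
    else (q - 1) • Finsupp.single w 1 + q • Finsupp.single (w * s i) 1

/-- the coefficients `c_{R,w}(q)`, computed letter by letter from `T_1` -/
noncomputable def coeffs {n : ℕ} (q : ℤ) (R : List (Fin n)) : Perm (Fin (n + 1)) →₀ ℤ :=
  R.foldl (fun v i => v + rmul q i v) (Finsupp.single 1 1)

/-- the Bott-Samelson distribution, computed from `coeffs` -/
noncomputable def bs' {n : ℕ} (q : ℤ) (R : List (Fin n)) (w : Perm (Fin (n + 1))) : ℚ :=
  (q : ℚ) ^ len w * (coeffs q R w : ℚ) / (1 + q) ^ R.length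

lemma core {n : ℕ} {q : ℤ} (hq : 0 < q) {R1 R2 : List (Fin n)} (h1 : Reduced R1)
    (h2 : Reduced R2) (h : eval R1 = eval R2) (hv : coeffs q R1 = coeffs q R2) :
    SameClass R1 R2 := by
  have h3 : Relation.ReflTransGen Q120.BS.Move R1 R2 :=
    Q120.BS.core (n := n) hq (R1 := R1) (R2 := R2) h1 h2 h hv
  refine Relation.ReflTransGen.mono (p := Move) ?_ R1 R2 h3
  rintro _ _ ⟨A, i, j, B, hij⟩
  exact ⟨A, i, j, B, hij, rfl, rfl⟩

lemma s_sq {n : ℕ} (i : Fin n) : s i * s i = 1 := by simp [s]

lemma phi_rmul {n : ℕ} {q : ℤ} {H : Type*} [Ring H] {T : Module.Basis (Perm (Fin (n + 1))) ℤ H}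
    (hT : IsHecke q T) (i : Fin n) (v : Perm (Fin (n + 1)) →₀ ℤ) :
    Finsupp.linearCombination ℤ T (rmul q i v) = Finsupp.linearCombination ℤ T v * T (s i) := by
  have : Finsupp.linearCombination ℤ T ∘ₗ rmul q i =
      (LinearMap.mulRight ℤ (T (s i))) ∘ₗ Finsupp.linearCombination ℤ T := by
    apply Finsupp.lhom_ext'
    intro w
    apply LinearMap.ext_ring
    simp only [LinearMap.comp_apply, Finsupp.lsingle_apply, rmul,
      Finsupp.linearCombination_single, one_smul, LinearMap.mulRight_apply]
    split_ifs with h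
    · rw [Finsupp.linearCombination_single, one_smul, hT.up w i h]
    · have hlt : len (w * s i) < len (w * s i * s i) := by
        rw [mul_assoc, s_sq, mul_one]
        have h1 := Q120.BS.len_lt w i
        have h2 := Q120.BS.len_lt (w * Q120.BS.simp' i) i
        have h3 : ¬ (w i.castSucc < w i.succ) := fun hh => h (h1.2 hh)
        rcases lt_or_eq_of_le (not_lt.1 h3) with h' | h'
        · have := h2.2 (by simpa [Q120.BS.simp', Equiv.Perm.mul_apply] using h')
          rwa [mul_assoc, Q120.BS.simp'_sq, mul_one] at this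
        · have := w.injective h'
          exact absurd this (ne_of_gt Fin.castSucc_lt_succ)
      have e1 := hT.up (w * s i) i hlt
      rw [mul_assoc w, s_sq, mul_one] at e1
      rw [map_add, map_smul, map_smul, Finsupp.linearCombination_single,
        Finsupp.linearCombination_single, one_smul, one_smul]
      conv_rhs => rw [← e1, mul_assoc, hT.quad i, mul_add, mul_smul_comm, mul_smul_comm, mul_one, e1]
  exact LinearMap.congr_fun this v

lemma phi_coeffs {n : ℕ} {q : ℤ} {H : Type*} [Ring H]
    {T : Module.Basis (Perm (Fin (n + 1))) ℤ H} (hT : IsHecke q T) (R : List (Fin n)) :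
    Finsupp.linearCombination ℤ T (coeffs q R) = (R.map fun i => 1 + T (s i)).prod := by
  induction R using List.reverseRecOn with
  | nil =>
    simp [coeffs, hT.one]
  | append_singleton A i ih =>
    have : coeffs q (A ++ [i]) = coeffs q A + rmul q i (coeffs q A) := by
      simp [coeffs]
    rw [this, map_add, phi_rmul hT, ih, List.map_append, List.prod_append]
    simp [mul_add]

lemma repr_eq {n : ℕ} {q : ℤ} {H : Type*} [Ring H]
    {T : Module.Basis (Perm (Fin (n + 1))) ℤ H} (hT : IsHecke q T) (R : List (Fin n)) :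
    T.repr ((R.map fun i => 1 + T (s i)).prod) = coeffs q R := by
  rw [← phi_coeffs hT, T.repr_linearCombination]

lemma concrete {n : ℕ} {q : ℤ} (hq : 0 < q) {R1 R2 : List (Fin n)} (h1 : Reduced R1)
    (h2 : Reduced R2) (h : eval R1 = eval R2) (hP : ∀ w, bs' q R1 w = bs' q R2 w) :
    SameClass R1 R2 := by
  apply core hq h1 h2 h
  have hl : R1.length = R2.length := by
    unfold Reduced at h1 h2
    rw [← h1, ← h2, h]
  ext w
  have hw := hP w
  unfold bs' at hw
  rw [hl] at hw
  have hq' : (0 : ℚ) < q := by exact_mod_cast hq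
  have a1 : (1 + (q : ℚ)) ^ R2.length ≠ 0 := by positivity
  have a2 : (q : ℚ) ^ len w ≠ 0 := by positivity
  have := mul_left_cancel₀ a2 ((div_left_inj' a1).1 hw)
  exact_mod_cast this

/-- **The answer to Q1 is no.** For every integer `q > 0` and every `n`, two reduced words of the
same permutation of `S_{n+1}` with the same Bott-Samelson distribution at this single value `q` are
in the same commutation class. The first part is stated in any Hecke algebra with its standard
basis, the second with the coefficients written out by the multiplication rule. -/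
theorem result :
    (∀ (n : ℕ) (q : ℤ), 0 < q → ∀ (H : Type) (_ : Ring H)
      (T : Module.Basis (Perm (Fin (n + 1))) ℤ H), IsHecke q T →
      ∀ R1 R2 : List (Fin n), Reduced R1 → Reduced R2 → eval R1 = eval R2 →
        (∀ w, bs q T R1 w = bs q T R2 w) → SameClass R1 R2) ∧
    (∀ (n : ℕ) (q : ℤ), 0 < q →
      ∀ R1 R2 : List (Fin n), Reduced R1 → Reduced R2 → eval R1 = eval R2 →
        (∀ w, bs' q R1 w = bs' q R2 w) → SameClass R1 R2) := by
  refine ⟨fun n q hq H _ T hT R1 R2 h1 h2 h hP => ?_, fun n q hq R1 R2 h1 h2 h hP =>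
    concrete hq h1 h2 h hP⟩
  apply concrete hq h1 h2 h
  intro w
  have := hP w
  unfold bs at this
  rw [repr_eq hT, repr_eq hT] at this
  exact this

end Pool.Agent.Results.MP_4f027a_co.FixedQ
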